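import Mathlib
import Pool.Agent.Results.MP_44afb3_an.CohenAlgebra
import Pool.Agent.Y280.CB.Core
import Pool.Agent.Y280.CB.Real
import Pool.Agent.Y280.CB.Fin

/-!
# Conway's question on complete Boolean algebras of subspaces: obstructions, realisation, thresholds

The starting result `CohenAlgebra` of this problem gives one counterexample: the regular open algebra
of the real line, realised by subspaces of `ℓ²(ℕ)`. Here:

* `Threshold`: for a complex Hilbert space `H`, every complete Boolean algebra of subspaces of `H` is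
  lattice isomorphic to a reflexive one (on some Hilbert space) if and only if `H` is finite
  dimensional, and then every Boolean algebra of subspaces of `H` is itself reflexive. On every
  infinite dimensional `H` there is a complete Boolean algebra `F` of subspaces such that no relative
  algebra `{N ∈ F | N ≤ M}`, `M ∈ F` nonzero, is lattice isomorphic to a reflexive family of closed
  subspaces; the least cardinality of a dense subset of `F` is the Hilbert dimension of `H`, so the
  algebras for different dimensions are not isomorphic.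
* `Obstruction`: a complete Boolean algebra which is isomorphic to a reflexive family of closed
  subspaces is weakly `(ω, ω)`-distributive, and below every nonzero element there is a nonzero `s`
  with the countable chain condition which carries a strictly positive monotone functional that is
  continuous along all increasing and decreasing sequences.
* `Realisation`: every complete Boolean algebra whose nonzero elements are covered by proper filters
  `J s`, `s ∈ S`, is isomorphic to a complete Boolean algebra of subspaces of every Hilbert space with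
  a Hilbert basis indexed by `S` (for instance `S` = a dense subset). So every complete Boolean
  algebra which violates one of the necessary conditions is a counterexample.
-/

set_option autoImplicit false

namespace Pool.Agent.Results.MP_44afb3_an.WeakDistributivity

open Filter Topology
open Pool.Agent.Results.MP_44afb3_an.CohenAlgebra
open Y280.CB

universe u v w

/-- Weak `(ω, ω)`-distributivity: if in every row `n` the elements `e n k` decrease to zero, then
zero is the only lower bound of the suprema `⨆ n, e n (f n)` over all choices `f`. -/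
def IsWeaklyDistributive (B : Type u) [CompleteBooleanAlgebra B] : Prop :=
  ∀ e : ℕ → ℕ → B, (∀ n, Antitone (e n)) → (∀ n, ⨅ k, e n k = ⊥) →
    ⨅ f : ℕ → ℕ, ⨆ n, e n (f n) = ⊥

/-- The countable chain condition below `s`. -/
def CountableChainBelow {B : Type u} [CompleteBooleanAlgebra B] (s : B) : Prop :=
  ∀ A : Set B, (∀ a ∈ A, a ≠ ⊥ ∧ a ≤ s) → A.PairwiseDisjoint id → A.Countable

/-- `m` is a monotone functional with values in `[0, ∞)`, vanishing exactly at the elements disjoint
from `s`, and continuous along increasing and decreasing sequences. -/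
structure IsContinuousFunctional {B : Type u} [CompleteBooleanAlgebra B] (s : B) (m : B → ℝ) :
    Prop where
  mono : Monotone m
  nonneg : ∀ a, 0 ≤ m a
  zero_iff : ∀ a, m a = 0 ↔ Disjoint a s
  sup : ∀ a : ℕ → B, Monotone a → Tendsto (fun n => m (a n)) atTop (𝓝 (m (⨆ n, a n)))
  inf : ∀ a : ℕ → B, Antitone a → Tendsto (fun n => m (a n)) atTop (𝓝 (m (⨅ n, a n)))

lemma exists_index (H : Type v) [NormedAddCommGroup H] [InnerProductSpace ℂ H] [CompleteSpace H]
    (hH : ¬ FiniteDimensional ℂ H) :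
    ∃ (ι : Type v) (_ : HilbertBasis ι ℂ H), Infinite ι := by
  obtain ⟨t, b, -⟩ := exists_hilbertBasis ℂ H
  refine ⟨t, b, ?_⟩
  by_contra hcon
  rw [not_infinite_iff_finite] at hcon
  haveI := Fintype.ofFinite t
  exact hH (Module.Finite.of_basis b.toOrthonormalBasis.toBasis)

/-- The counterexample on an infinite dimensional space. -/
lemma exists_family (H : Type v) [NormedAddCommGroup H] [InnerProductSpace ℂ H]
    (ι : Type v) (β : HilbertBasis ι ℂ H) [Infinite ι] :
    ∃ F : Set (Submodule ℂ H), IsBooleanAlgebraOfSubspaces F ∧ IsCompleteFamily F ∧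
      (∃ D : ι → F, (∀ i, (D i : Submodule ℂ H) ≠ ⊥) ∧
        ∀ M ∈ F, M ≠ ⊥ → ∃ i, (D i : Submodule ℂ H) ≤ M) ∧
      (∃ A : ι → F, (∀ i, (A i : Submodule ℂ H) ≠ ⊥) ∧
        ∀ i j, i ≠ j → (A i : Submodule ℂ H) ⊓ A j = ⊥) ∧
      ∀ M ∈ F, M ≠ ⊥ → ∀ (K : Type w) [NormedAddCommGroup K] [InnerProductSpace ℂ K]
        [CompleteSpace K] (G : Set (Submodule ℂ K)), (∀ N ∈ G, IsClosed (N : Set K)) →
        IsReflexiveFamily G → ¬ LatticeIsomorphic {N | N ∈ F ∧ N ≤ M} G := by
  obtain ⟨eq⟩ : Nonempty (List ι ≃ ι) := Cardinal.eq.1 (Cardinal.mk_list_eq_mk ι)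
  let π : ι → ℕ := Function.invFun (Infinite.natEmbedding ι)
  have hπ : Function.Surjective π := Function.invFun_surjective (Infinite.natEmbedding ι).injective
  let D : ι → TA ι := fun i => cyl ⟨eq.symm i⟩
  obtain ⟨F, hF1, hF2, ⟨θ⟩⟩ := realise (B := TA ι) (fun i => Order.PFilter.principal (D i))
    (fun i h => cyl_ne _ (le_bot_iff.1 (Order.PFilter.mem_principal.1 h)))
    (fun b hb => by
      obtain ⟨p, hp⟩ := cyl_dense b hb
      refine ⟨eq p.l, Order.PFilter.mem_principal.2 ?_⟩
      change cyl ⟨eq.symm (eq p.l)⟩ ≤ b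
      rw [eq.symm_apply_apply]
      exact hp) β
  have hbot : θ ⊥ = ⟨⊥, hF1.bot_mem⟩ := by
    apply le_antisymm
    · obtain ⟨z, hz⟩ := θ.surjective ⟨⊥, hF1.bot_mem⟩
      rw [← hz]
      exact θ.monotone bot_le
    · exact (bot_le : (⊥ : Submodule ℂ H) ≤ _)
  have hne : ∀ b : TA ι, b ≠ ⊥ → (θ b : Submodule ℂ H) ≠ ⊥ := by
    intro b hb h
    apply hb
    apply θ.injective
    rw [hbot]
    exact Subtype.ext h
  refine ⟨F, hF1, hF2, ⟨fun i => θ (D i), fun i => hne _ (cyl_ne _), ?_⟩,
    ⟨fun i => θ (cyl ⟨[i]⟩), fun i => hne _ (cyl_ne _), ?_⟩, ?_⟩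
  · intro M hM hM0
    obtain ⟨b, hb⟩ := θ.surjective ⟨M, hM⟩
    have hb0 : b ≠ ⊥ := by
      rintro rfl
      rw [hbot] at hb
      exact hM0 (congrArg Subtype.val hb).symm
    obtain ⟨p, hp⟩ := cyl_dense b hb0
    refine ⟨eq p.l, ?_⟩
    have h1 : θ (D (eq p.l)) ≤ θ b := by
      apply θ.monotone
      change cyl ⟨eq.symm (eq p.l)⟩ ≤ b
      rw [eq.symm_apply_apply]
      exact hp
    rw [hb] at h1
    exact h1
  · intro i j hij
    obtain ⟨c, hc⟩ := θ.surjective ⟨_, hF1.inf_mem _ (θ (cyl ⟨[i]⟩)).2 _ (θ (cyl ⟨[j]⟩)).2⟩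
    have h1' : θ c ≤ θ (cyl ⟨[i]⟩) := by
      rw [hc]
      exact (inf_le_left : _ ⊓ _ ≤ (θ (cyl ⟨[i]⟩) : Submodule ℂ H))
    have h2' : θ c ≤ θ (cyl ⟨[j]⟩) := by
      rw [hc]
      exact (inf_le_right : _ ⊓ _ ≤ (θ (cyl ⟨[j]⟩) : Submodule ℂ H))
    have h1 : c ≤ cyl ⟨[i]⟩ := θ.le_iff_le.1 h1'
    have h2 : c ≤ cyl ⟨[j]⟩ := θ.le_iff_le.1 h2'
    have h3 : c = ⊥ := le_bot_iff.1 ((cyl_disjoint i j hij) h1 h2)
    rw [h3, hbot] at hc
    exact (congrArg Subtype.val hc).symm
  · intro M hM hM0 K _ _ _ G hcl hG hiso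
    have hFM : ∀ A ∈ ({N | N ∈ F ∧ N ≤ M} : Set (Submodule ℂ H)),
        ∀ B ∈ ({N | N ∈ F ∧ N ≤ M} : Set (Submodule ℂ H)),
        A ⊓ B ∈ ({N | N ∈ F ∧ N ≤ M} : Set (Submodule ℂ H)) := fun A hA B hB =>
      ⟨hF1.inf_mem A hA.1 B hB.1, inf_le_left.trans hA.2⟩
    obtain ⟨ψ⟩ := orderIso_of_latticeIso _ G hFM hiso
    obtain ⟨χ⟩ := iso_ideal F θ M hM
    have hrep := rep_of_orderIso (θ.symm ⟨M, hM⟩) G hcl hG (χ.trans ψ)
    have h1 : θ.symm ⟨M, hM⟩ = ⊥ := hrep.weakly_distributive (mat π) (mat_anti π)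
      (mat_inf π hπ) _ le_rfl fun f => by rw [mat_sup π hπ f]; exact le_top
    have h2 : (⟨M, hM⟩ : F) = θ ⊥ := by rw [← h1, θ.apply_symm_apply]
    rw [hbot] at h2
    exact hM0 (congrArg Subtype.val h2)

/-- **Threshold, obstruction, realisation.** -/
theorem result :
    -- (1) the answer to the question for the algebras on a given Hilbert space
    (∀ (H : Type v) [NormedAddCommGroup H] [InnerProductSpace ℂ H] [CompleteSpace H],
      (∀ F : Set (Submodule ℂ H), IsBooleanAlgebraOfSubspaces F → IsCompleteFamily F →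
        ∃ (K : Type v) (_ : NormedAddCommGroup K) (_ : InnerProductSpace ℂ K)
          (_ : CompleteSpace K) (G : Set (Submodule ℂ K)),
          IsBooleanAlgebraOfSubspaces G ∧ IsReflexiveFamily G ∧ LatticeIsomorphic F G) ↔
      FiniteDimensional ℂ H) ∧
    (∀ (H : Type v) [NormedAddCommGroup H] [InnerProductSpace ℂ H] [FiniteDimensional ℂ H]
      (F : Set (Submodule ℂ H)), IsBooleanAlgebraOfSubspaces F → IsReflexiveFamily F) ∧
    -- (2) counterexamples on every infinite dimensional Hilbert space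
    (∀ (H : Type v) [NormedAddCommGroup H] [InnerProductSpace ℂ H] [CompleteSpace H],
      ¬ FiniteDimensional ℂ H →
      ∃ (F : Set (Submodule ℂ H)) (ι : Type v) (_ : HilbertBasis ι ℂ H),
        IsBooleanAlgebraOfSubspaces F ∧ IsCompleteFamily F ∧
        (∃ D : ι → F, (∀ i, (D i : Submodule ℂ H) ≠ ⊥) ∧
          ∀ M ∈ F, M ≠ ⊥ → ∃ i, (D i : Submodule ℂ H) ≤ M) ∧
        (∃ A : ι → F, (∀ i, (A i : Submodule ℂ H) ≠ ⊥) ∧
          ∀ i j, i ≠ j → (A i : Submodule ℂ H) ⊓ A j = ⊥) ∧
        ∀ M ∈ F, M ≠ ⊥ → ∀ (K : Type w) [NormedAddCommGroup K] [InnerProductSpace ℂ K]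
          [CompleteSpace K] (G : Set (Submodule ℂ K)), (∀ N ∈ G, IsClosed (N : Set K)) →
          IsReflexiveFamily G → ¬ LatticeIsomorphic {N | N ∈ F ∧ N ≤ M} G) ∧
    -- (3) necessary conditions
    (∀ (B : Type u) [CompleteBooleanAlgebra B] (K : Type v) [NormedAddCommGroup K]
      [InnerProductSpace ℂ K] [CompleteSpace K] (G : Set (Submodule ℂ K)),
      (∀ N ∈ G, IsClosed (N : Set K)) → IsReflexiveFamily G → Nonempty (B ≃o G) →
      IsWeaklyDistributive B ∧ ∀ b : B, b ≠ ⊥ → ∃ s ≤ b, s ≠ ⊥ ∧ CountableChainBelow s ∧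
        ∃ m : B → ℝ, IsContinuousFunctional s m) ∧
    -- (4) realisation
    (∀ (B : Type u) [CompleteBooleanAlgebra B] (S : Type w) (J : S → Order.PFilter B),
      (∀ s, ⊥ ∉ J s) → (∀ b : B, b ≠ ⊥ → ∃ s, b ∈ J s) →
      ∀ (H : Type v) [NormedAddCommGroup H] [InnerProductSpace ℂ H] [CompleteSpace H]
        (_ : HilbertBasis S ℂ H),
        ∃ F : Set (Submodule ℂ H), IsBooleanAlgebraOfSubspaces F ∧ IsCompleteFamily F ∧
          Nonempty (B ≃o F)) := by
  refine ⟨?_, ?_, ?_, ?_, ?_⟩
  · intro H _ _ _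
    constructor
    · intro h
      by_contra hH
      obtain ⟨ι, β, hι⟩ := exists_index H hH
      obtain ⟨F, hF1, hF2, -, ⟨A, hA, -⟩, hF3⟩ := exists_family.{v, v} H ι β
      obtain ⟨K, _, _, _, G, hG1, hG2, hG3⟩ := h F hF1 hF2
      have htop : (⊤ : Submodule ℂ H) ≠ ⊥ := by
        intro h0
        obtain ⟨i⟩ := hι.nonempty
        apply hA i
        rw [eq_bot_iff, ← h0]
        exact le_top
      apply hF3 ⊤ hF1.top_mem htop K G hG1.isClosed hG2
      have : ({N | N ∈ F ∧ N ≤ ⊤} : Set (Submodule ℂ H)) = F := by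
        ext N
        simp
      rw [this]
      exact hG3
    · intro hH F hF _
      exact ⟨H, inferInstance, inferInstance, inferInstance, F, hF, fin_reflexive F hF,
        latticeIso_refl F⟩
  · intro H _ _ _ F hF
    exact fin_reflexive F hF
  · intro H _ _ _ hH
    obtain ⟨ι, β, hι⟩ := exists_index H hH
    obtain ⟨F, h1, h2, h3, h4, h5⟩ := exists_family.{v, w} H ι β
    exact ⟨F, ι, β, h1, h2, h3, h4, h5⟩
  · intro B _ K _ _ _ G hcl hG ⟨ψ⟩
    have hrep := rep_of_orderIso (⊤ : B) G hcl hG (OrderIso.IicTop.trans ψ)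
    constructor
    · intro e he h0
      exact hrep.weakly_distributive e he h0 _ le_top fun f => iInf_le _ f
    · intro b hb
      obtain ⟨s, hs1, hs2, m, hm1, hm2, hm3, hm4, hm5⟩ := hrep.functional b hb le_top
      exact ⟨s, hs1, hs2, fun A hA hd => ccc_of_functional s m hm1 hm2 hm3 hm5 A hA hd, m,
        ⟨hm1, hm2, hm3, hm4, hm5⟩⟩
  · intro B _ S J hJ hJ2 H _ _ _ β
    exact realise J hJ hJ2 β

end Pool.Agent.Results.MP_44afb3_an.WeakDistributivity
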